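import Pool.Agent.Helper5.FRD.Goals

/-!
# FRD, packet STARC2
-/

set_option autoImplicit false

namespace Pool.Agent.Helper72.FRD.STARC2

open Finset
open Pool.Agent.Helper5.FRC
open Pool.Agent.Helper5.FRD

section

variable {V : Type} [DecidableEq V]

theorem dm_sdiff (t : V → V) (S Y : Finset V) :
    dm t S ≤ ((S.filter fun x => t x ∉ S).filter fun x => x ∈ Y).card + dm t (S \ Y) := by
  unfold dm
  rw [← Finset.card_filter_add_card_filter_not (s := S.filter fun x => t x ∉ S) (fun x => x ∈ Y)]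
  refine Nat.add_le_add_left (Finset.card_le_card ?_) _
  intro x hx
  simp only [mem_filter, mem_sdiff] at hx ⊢
  exact ⟨⟨hx.1.1, hx.2⟩, fun h => hx.1.2 h.1⟩

end

theorem t (h1 : NprStmt) (h2 : SlideStmt) (h3 : RtailStmt) (h4 : ChainStmt) (h5 : FinStmt)
    (h6 : SubmStmt) : Starc2Stmt := by
  intro V _ _ n A t C Z hF p t' hp hR hst hd0 hZ1 hZ2
  have hF' := hF
  obtain ⟨hn, hA, hBl, hCir, hOdd, hDis, hZ, hZe, hCZ, hAU⟩ := hF'
  have hZA : Z ⊆ A := by
    rw [hAU]
    exact subset_union_right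
  have hCA : ∀ i, C i ⊆ A := fun i => by
    rw [hAU]
    exact (subset_biUnion_of_mem C (mem_univ i)).trans subset_union_left
  have hAC : ∀ v ∈ A, (∃ i, v ∈ C i) ∨ v ∈ Z := by
    intro v hv
    rw [hAU, mem_union, mem_biUnion] at hv
    rcases hv with ⟨i, -, hi⟩ | hv
    · exact Or.inl ⟨i, hi⟩
    · exact Or.inr hv
  have hCnZ : ∀ i, ∀ v ∈ C i, v ∉ Z := fun i v hv => disjoint_left.1 (hCZ i) hv
  have hCC : ∀ i j, i ≠ j → ∀ v ∈ C i, v ∉ C j := fun i j hij v hv =>
    disjoint_left.1 (hDis i j hij) hv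
  have hCAZ : ∀ i, C i ⊆ A \ Z := fun i v hv => mem_sdiff.2 ⟨hCA i hv, hCnZ i v hv⟩
  have hdm : ∀ i, 5 ≤ dm t (C i) := fun i => hBl (C i) (hCA i) (hCir i).2.1 (hOdd i)
  have hchain : ∀ e ∈ A \ Z, t e ∉ Z → t' e = t e := fun e he =>
    (h4 V A Z t p t' hA hZA hp.1 hR e he).2.1
  have hdo : ∀ i, dm t (C i) % 2 = 1 := by
    intro i
    rw [(h6 V A (C i) (C i) t hA (hCA i) (hCA i)).2.2, ← Nat.odd_iff]
    exact hOdd i
  have htt : ∀ x ∈ A, t (t x) = x := fun x hx => (hA x hx).2.1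
  have htA : ∀ x ∈ A, t x ∈ A := fun x hx => (hA x hx).1
  -- the leaves 1 and 2
  have hL : ∀ i : Fin 4, (i = 1 ∨ i = 2) → ∀ x ∈ C i, t x ∉ C i → t x ∈ C 3 := by
    rintro i (rfl | rfl) x hx h
    · have h7 := hchain x (hCAZ 1 hx) (hZ1 x hx)
      rcases hst 1 (by decide) x hx with h8 | h8
      · rw [h7] at h8
        exact absurd h8 h
      · rwa [h7] at h8
    · have h7 := hchain x (hCAZ 2 hx) (hZ2 x hx)
      rcases hst 2 (by decide) x hx with h8 | h8
      · rw [h7] at h8
        exact absurd h8 h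
      · rwa [h7] at h8
  have hcnt : ∀ i : Fin 4, (i = 1 ∨ i = 2) →
      ((C 3).filter fun x => t x ∈ C i).card = dm t (C i) := by
    intro i hi
    have hi3 : i ≠ 3 := by rcases hi with rfl | rfl <;> decide
    unfold dm
    refine Finset.card_bij' (fun x _ => t x) (fun x _ => t x) ?_ ?_ ?_ ?_
    · intro x hx
      rw [mem_filter] at hx ⊢
      rw [htt x (hCA 3 hx.1)]
      exact ⟨hx.2, hCC 3 i hi3.symm x hx.1⟩
    · intro x hx
      rw [mem_filter] at hx ⊢
      rw [htt x (hCA i hx.1)]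
      exact ⟨hL i hi x hx.1 hx.2, hx.1⟩
    · intro x hx
      rw [mem_filter] at hx
      exact htt x (hCA 3 hx.1)
    · intro x hx
      rw [mem_filter] at hx
      exact htt x (hCA i hx.1)
  -- the data for SLIDE
  obtain ⟨b, hb1, hb2⟩ : ∃ b : V → V, (∀ x, t x ∈ C 3 → b x = t x) ∧
      (∀ x, t x ∉ C 3 → b x = x) :=
    ⟨fun x => if t x ∈ C 3 then t x else x, fun x h => if_pos h, fun x h => if_neg h⟩
  obtain ⟨col, hc0, hc1, hc2⟩ : ∃ col : V → Fin 3, (∀ x, col x = 0 ↔ t x ∉ C 1 ∧ t x ∉ C 2) ∧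
      (∀ x, col x = 1 ↔ t x ∈ C 1) ∧ (∀ x, col x = 2 ↔ t x ∈ C 2) := by
    refine ⟨fun x => if t x ∈ C 1 then 1 else if t x ∈ C 2 then 2 else 0, ?_, ?_, ?_⟩
    · intro x
      by_cases e1 : t x ∈ C 1
      · simp [e1]
      · by_cases e2 : t x ∈ C 2
        · simp [e1, e2]
        · simp [e1, e2]
    · intro x
      by_cases e1 : t x ∈ C 1
      · simp [e1]
      · by_cases e2 : t x ∈ C 2
        · simp [e1, e2]
        · simp [e1, e2]
    · intro x
      by_cases e1 : t x ∈ C 1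
      · have e2 : t x ∉ C 2 := hCC 1 2 (by decide) _ e1
        simp [e1, e2]
      · by_cases e2 : t x ∈ C 2
        · simp [e1, e2]
        · simp [e1, e2]
  have hbC : ∀ x ∈ C 3, b x ∈ C 3 ∧ b (b x) = x := by
    intro x hx
    by_cases h : t x ∈ C 3
    · have e2 : b (t x) = x := by
        rw [hb1 (t x) (by rw [htt x (hCA 3 hx)]; exact hx), htt x (hCA 3 hx)]
      rw [hb1 x h, e2]
      exact ⟨h, rfl⟩
    · rw [hb2 x h, hb2 x h]
      exact ⟨hx, rfl⟩
  have hbf : ∀ x ∈ C 3, (b x = x ↔ t x ∉ C 3) := by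
    intro x hx
    constructor
    · intro h h'
      rw [hb1 x h'] at h
      exact (hA x (hCA 3 hx)).2.2 h
    · exact hb2 x
  have hf1 : ((C 3).filter fun x => b x = x ∧ col x = 1) = (C 3).filter fun x => t x ∈ C 1 := by
    refine filter_congr fun x hx => ?_
    rw [hbf x hx, hc1]
    exact ⟨fun h => h.2, fun h => ⟨hCC 1 3 (by decide) _ h, h⟩⟩
  have hf2 : ((C 3).filter fun x => b x = x ∧ col x = 2) = (C 3).filter fun x => t x ∈ C 2 := by
    refine filter_congr fun x hx => ?_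
    rw [hbf x hx, hc2]
    exact ⟨fun h => h.2, fun h => ⟨hCC 2 3 (by decide) _ h, h⟩⟩
  have hf3 : ((C 3).filter fun x => b x = x) = (C 3).filter fun x => t x ∉ C 3 :=
    filter_congr hbf
  have hsum := Finset.card_eq_sum_card_fiberwise (f := col) (s := (C 3).filter fun x => b x = x)
    (t := univ) (fun x _ => mem_univ _)
  rw [Fin.sum_univ_three, filter_filter, filter_filter, filter_filter, hf3, hf1, hf2,
    hcnt 1 (Or.inl rfl), hcnt 2 (Or.inr rfl)] at hsum
  have hcodd : ∀ i, Odd ((C 3).filter fun x => b x = x ∧ col x = i).card := by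
    have e1 := hdo 1
    have e2 := hdo 2
    have e3 := hdo 3
    have e3' : ((C 3).filter fun x => t x ∉ C 3).card % 2 = 1 := e3
    intro i
    rw [Nat.odd_iff]
    fin_cases i
    · show ((C 3).filter fun x => b x = x ∧ col x = 0).card % 2 = 1
      omega
    · show ((C 3).filter fun x => b x = x ∧ col x = 1).card % 2 = 1
      rw [hf1, hcnt 1 (Or.inl rfl)]
      exact e1
    · show ((C 3).filter fun x => b x = x ∧ col x = 2).card % 2 = 1
      rw [hf2, hcnt 2 (Or.inr rfl)]
      exact e2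
  obtain ⟨p3, hp3, q3, Y3, hY3, hq3, hpY, hcl, hone⟩ := h2 V n (C 3) (hCir 3) (hOdd 3) b col hbC
    hcodd
  have hone' : ∀ i : Fin 3, ∃ y ∈ Y3, b y = y ∧ col y = i ∧
      ∀ x ∈ Y3, b x = x → col x = i → x = y := by
    intro i
    obtain ⟨y, hy⟩ := Finset.card_eq_one.mp (hone i)
    have e : ∀ x, (x ∈ Y3 ∧ b x = x ∧ col x = i) ↔ x = y := by
      intro x
      have h := Finset.ext_iff.mp hy x
      rwa [mem_filter, mem_singleton] at h
    have h7 := (e y).mpr rfl
    exact ⟨y, h7.1, h7.2.1, h7.2.2, fun x hx hx1 hx2 => (e x).mp ⟨hx, hx1, hx2⟩⟩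
  choose v hvY hvb hvc hvu using hone'
  have hv3 : ∀ i, v i ∈ C 3 := fun i => hY3 (hvY i)
  have hvA : ∀ i, v i ∈ A := fun i => hCA 3 (hv3 i)
  have hvn : ∀ i, t (v i) ∉ C 3 := fun i => (hbf _ (hv3 i)).mp (hvb i)
  have hx1 : t (v 1) ∈ C 1 := (hc1 _).mp (hvc 1)
  have hx2 : t (v 2) ∈ C 2 := (hc2 _).mp (hvc 2)
  have hx0 : t (v 0) ∈ C 0 ∨ t (v 0) ∈ Z := by
    have h7 := (hc0 _).mp (hvc 0)
    rcases hAC _ (htA _ (hvA 0)) with ⟨i, hi⟩ | h8
    · have h9 := hvn 0
      fin_cases i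
      · exact Or.inl hi
      · exact absurd hi h7.1
      · exact absurd hi h7.2
      · exact absurd hi h9
    · exact Or.inr h8
  have hstay : ∀ x ∈ Y3, t x ∈ Y3 ∨ x = v 0 ∨ x = v 1 ∨ x = v 2 := by
    intro x hx
    by_cases h : t x ∈ C 3
    · left
      have h7 := (hcl x hx).2
      rwa [hb1 x h] at h7
    · right
      have h7 : ∀ i : Fin 3, col x = i → x = v i := fun i hi => hvu i x hx (hb2 x h) hi
      have h8 : ∀ i : Fin 3, col x = i → x = v 0 ∨ x = v 1 ∨ x = v 2 := by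
        intro i hi
        have h9 := h7 i hi
        fin_cases i
        · exact Or.inl h9
        · exact Or.inr (Or.inl h9)
        · exact Or.inr (Or.inr h9)
      exact h8 (col x) rfl
  -- the set `U`
  obtain ⟨q, U, e, hUA, hHalf, he0, hUZ⟩ : ∃ (q : V → V) (U : Finset V) (e : V), U ⊆ A ∧
      Half n Z t q U ∧ e ∈ C 0 ∧ U \ Z = {v 0, e} := by
    rcases hx0 with h0 | h0
    · refine ⟨p, {v 0, t (v 0)}, t (v 0), ?_, ⟨?_, ?_, ?_, ?_⟩, h0, ?_⟩
      · intro x hx
        rw [mem_insert, mem_singleton] at hx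
        rcases hx with rfl | rfl
        · exact hvA 0
        · exact htA _ (hvA 0)
      · intro x hx
        exact ⟨(hp.1 x hx).1, (hp.1 x hx).2.1, Or.inr (hp.2 x hx)⟩
      · intro x hx hxp
        exact absurd hxp (hp.1 x hx).2.2
      · have h7 : (Z.filter fun x => p x = x) = ∅ := by
          rw [filter_eq_empty_iff]
          exact fun x hx => (hp.1 x hx).2.2
        unfold fx
        rw [h7]
        simp
      · intro x hx
        rw [mem_insert, mem_singleton] at hx
        rcases hx with rfl | rfl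
        · exact ⟨by simp, fun h => absurd h (hCnZ 3 _ (hv3 0))⟩
        · rw [htt _ (hvA 0)]
          exact ⟨by simp, fun h => absurd h (hCnZ 0 _ h0)⟩
      · ext x
        rw [mem_sdiff, mem_insert, mem_singleton]
        constructor
        · exact fun h => h.1
        · rintro (rfl | rfl)
          · exact ⟨Or.inl rfl, hCnZ 3 _ (hv3 0)⟩
          · exact ⟨Or.inr rfl, hCnZ 0 _ h0⟩
    · obtain ⟨u, hu0, hut, hut'⟩ : ∃ u ∈ C 0, t u ∉ C 0 ∧ t' u ∈ C 0 := by
        by_contra hcon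
        push Not at hcon
        have hsub : (C 0).filter (fun v => t v ∉ C 0) ⊆ (C 0).filter (fun v => t' v ∉ C 0) := by
          intro v hv
          rw [mem_filter] at hv ⊢
          exact ⟨hv.1, hcon v hv.1 hv.2⟩
        have h := card_le_card hsub
        have h5 := hdm 0
        unfold dm at h5 hd0
        omega
      have huZ : t u ∈ Z := by
        by_contra hcon
        have h := hchain u (hCAZ 0 hu0) hcon
        rw [h] at hut'
        exact hut hut'
      obtain ⟨q, U, hUA, hHalf, hwU, e, he0, hUZ⟩ := h3 V n A Z (C 0) t p t' hA hZA hZ hZe hp hR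
        (hCAZ 0) u hu0 huZ hut' (t (v 0)) h0 (by rw [htt _ (hvA 0)]; exact hCnZ 3 _ (hv3 0))
        (by rw [htt _ (hvA 0)]; exact hCC 3 0 (by decide) _ (hv3 0))
      rw [htt _ (hvA 0)] at hUZ
      exact ⟨q, U, e, hUA, hHalf, he0, hUZ⟩
  obtain ⟨hH1, hH2, hH3, hH4⟩ := hHalf
  have hUnot : ∀ x ∈ U, x ∉ Z → x = v 0 ∨ x = e := by
    intro x hx hxZ
    have : x ∈ U \ Z := mem_sdiff.2 ⟨hx, hxZ⟩
    rw [hUZ] at this
    simpa using this
  have hvU : v 0 ∈ U := by
    have : v 0 ∈ U \ Z := by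
      rw [hUZ]
      simp
    exact (mem_sdiff.1 this).1
  have heU : e ∈ U := by
    have : e ∈ U \ Z := by
      rw [hUZ]
      simp
    exact (mem_sdiff.1 this).1
  -- the pairings
  obtain ⟨q0, hq0⟩ := h1 V n (C 0) (hCir 0) (hOdd 0) e he0
  obtain ⟨q1, hq1⟩ := h1 V n (C 1) (hCir 1) (hOdd 1) (t (v 1)) hx1
  obtain ⟨q2, hq2⟩ := h1 V n (C 2) (hCir 2) (hOdd 2) (t (v 2)) hx2
  obtain ⟨Q, hQ0, hQ1, hQ2, hQ3⟩ : ∃ Q : Fin 4 → V → V, Q 0 = q0 ∧ Q 1 = q1 ∧ Q 2 = q2 ∧
      Q 3 = q3 := ⟨![q0, q1, q2, q3], rfl, rfl, rfl, rfl⟩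
  obtain ⟨pt, hpt0, hpt1, hpt2, hpt3⟩ : ∃ pt : Fin 4 → V, pt 0 = e ∧ pt 1 = t (v 1) ∧
      pt 2 = t (v 2) ∧ pt 3 = p3 := ⟨![e, t (v 1), t (v 2), p3], rfl, rfl, rfl, rfl⟩
  have hN : ∀ i, Npr n (C i) (pt i) (Q i) := by
    intro i
    fin_cases i
    · show Npr n (C 0) (pt 0) (Q 0)
      rw [hpt0, hQ0]
      exact hq0
    · show Npr n (C 1) (pt 1) (Q 1)
      rw [hpt1, hQ1]
      exact hq1
    · show Npr n (C 2) (pt 2) (Q 2)
      rw [hpt2, hQ2]
      exact hq2
    · show Npr n (C 3) (pt 3) (Q 3)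
      rw [hpt3, hQ3]
      exact hq3
  have hptC : ∀ i, pt i ∈ C i := by
    intro i
    fin_cases i
    · show pt 0 ∈ C 0
      rw [hpt0]
      exact he0
    · show pt 1 ∈ C 1
      rw [hpt1]
      exact hx1
    · show pt 2 ∈ C 2
      rw [hpt2]
      exact hx2
    · show pt 3 ∈ C 3
      rw [hpt3]
      exact hp3
  obtain ⟨P, hPZ, hPQ⟩ : ∃ P : V → V, (∀ x ∈ Z, P x = q x) ∧ ∀ i, ∀ x ∈ C i, P x = Q i x := by
    classical
    refine ⟨fun x => if x ∈ Z then q x else if h : ∃ i, x ∈ C i then Q h.choose x else x, ?_, ?_⟩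
    · intro x hx
      simp only [if_pos hx]
    · intro i x hx
      have h : ∃ i, x ∈ C i := ⟨i, hx⟩
      have e : h.choose = i := by
        by_contra hne
        exact hCC _ _ hne x h.choose_spec hx
      simp only [if_neg (hCnZ i x hx), dif_pos h, e]
  -- membership in `Y`
  obtain ⟨Y, hmY⟩ : ∃ Y : Finset V, ∀ x, x ∈ Y ↔ x ∈ U ∨ x ∈ Y3 ∨ x = t (v 1) ∨ x = t (v 2) := by
    refine ⟨U ∪ (Y3 ∪ {t (v 1), t (v 2)}), fun x => ?_⟩
    rw [mem_union, mem_union, mem_insert, mem_singleton]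
  have hYU : ∀ x ∈ U, x ∈ Y := fun x hx => (hmY x).mpr (Or.inl hx)
  have hYY : ∀ x ∈ Y3, x ∈ Y := fun x hx => (hmY x).mpr (Or.inr (Or.inl hx))
  have hY1 : t (v 1) ∈ Y := (hmY _).mpr (Or.inr (Or.inr (Or.inl rfl)))
  have hY2 : t (v 2) ∈ Y := (hmY _).mpr (Or.inr (Or.inr (Or.inr rfl)))
  have hYA : Y ⊆ A := by
    intro x hx
    rcases (hmY x).mp hx with h | h | h | h
    · exact hUA h
    · exact hCA 3 (hY3 h)
    · rw [h]; exact htA _ (hvA 1)
    · rw [h]; exact htA _ (hvA 2)
  have hY3i : ∀ x ∈ Y, x ∈ C 3 → x ∈ Y3 := by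
    intro x hx hxC
    rcases (hmY x).mp hx with h | h | h | h
    · rcases hUnot x h (hCnZ 3 x hxC) with h7 | h7
      · rw [h7]; exact hvY 0
      · rw [h7] at hxC
        exact absurd hxC (hCC 0 3 (by decide) _ he0)
    · exact h
    · rw [h] at hxC
      exact absurd hxC (hCC 1 3 (by decide) _ hx1)
    · rw [h] at hxC
      exact absurd hxC (hCC 2 3 (by decide) _ hx2)
  have hYi : ∀ i : Fin 4, i ≠ 3 → ∀ x ∈ Y, x ∈ C i → x = pt i := by
    intro i hi x hx hxC
    have a0 : x = e → i = 0 := by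
      intro h
      by_contra hne
      rw [h] at hxC
      exact hCC 0 i (Ne.symm hne) _ he0 hxC
    have a1 : x = t (v 1) → i = 1 := by
      intro h
      by_contra hne
      rw [h] at hxC
      exact hCC 1 i (Ne.symm hne) _ hx1 hxC
    have a2 : x = t (v 2) → i = 2 := by
      intro h
      by_contra hne
      rw [h] at hxC
      exact hCC 2 i (Ne.symm hne) _ hx2 hxC
    rcases (hmY x).mp hx with h | h | h | h
    · rcases hUnot x h (hCnZ i x hxC) with h7 | h7
      · rw [h7] at hxC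
        exact absurd hxC (hCC 3 i (Ne.symm hi) _ (hv3 0))
      · rw [a0 h7, hpt0]
        exact h7
    · exact absurd hxC (hCC 3 i (Ne.symm hi) _ (hY3 h))
    · rw [a1 h, hpt1]
      exact h
    · rw [a2 h, hpt2]
      exact h
  have hptY : ∀ i, pt i ∈ Y := by
    intro i
    fin_cases i
    · show pt 0 ∈ Y
      rw [hpt0]
      exact hYU _ heU
    · show pt 1 ∈ Y
      rw [hpt1]
      exact hY1
    · show pt 2 ∈ Y
      rw [hpt2]
      exact hY2
    · show pt 3 ∈ Y
      rw [hpt3]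
      exact hYY _ hpY
  have hPfix : ∀ i, ∀ x ∈ C i, (P x = x ↔ x = pt i) := by
    intro i x hx
    rw [hPQ i x hx]
    exact (hN i x hx).2.2.2
  refine h5 V n A t C Z hF P Y hYA ?_ ?_ ?_ ?_ ?_ ?_ ?_
  · intro x hx
    rcases hAC x hx with ⟨i, hi⟩ | hi
    · obtain ⟨a1, a2, a3, -⟩ := hN i x hi
      rw [hPQ i x hi, hPQ i _ a1]
      exact ⟨hCA i a1, a2, a3⟩
    · obtain ⟨a1, a2, a3⟩ := hH1 x hi
      rw [hPZ x hi, hPZ _ a1]
      exact ⟨hZA a1, a2, a3⟩
  · intro x hx
    have hP3 : ∀ y ∈ Y3, P y ∈ Y := by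
      intro y hy
      rw [hPQ 3 y (hY3 hy), hQ3]
      exact hYY _ (hcl y hy).1
    rcases (hmY x).mp hx with h | h | h | h
    · refine ⟨hYU _ (hH4 x h).1, ?_⟩
      by_cases hxZ : x ∈ Z
      · rw [hPZ x hxZ]
        exact hYU _ ((hH4 x h).2 hxZ)
      · rcases hUnot x h hxZ with h7 | h7
        · rw [h7]
          exact hP3 _ (hvY 0)
        · rw [h7, (hPfix 0 e he0).mpr hpt0.symm]
          exact hYU _ heU
    · refine ⟨?_, hP3 x h⟩
      rcases hstay x h with h7 | h7 | h7 | h7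
      · exact hYY _ h7
      · rw [h7]
        exact hYU _ (hH4 _ hvU).1
      · rw [h7]
        exact hY1
      · rw [h7]
        exact hY2
    · rw [h]
      refine ⟨?_, ?_⟩
      · rw [htt _ (hvA 1)]
        exact hYY _ (hvY 1)
      · rw [(hPfix 1 _ hx1).mpr hpt1.symm]
        exact hY1
    · rw [h]
      refine ⟨?_, ?_⟩
      · rw [htt _ (hvA 2)]
        exact hYY _ (hvY 2)
      · rw [(hPfix 2 _ hx2).mpr hpt2.symm]
        exact hY2
  · intro x hx hPx
    rcases hAC x hx with ⟨i, hi⟩ | hi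
    · have h7 := (hPfix i x hi).mp hPx
      refine ⟨h7 ▸ hptY i, ?_⟩
      have hni : n x ∈ C i := (hCir i).2.1 x hi
      intro h8
      have h9 := (hPfix i _ hni).mp h8
      exact hn x (h9.trans h7.symm)
    · rw [hPZ x hi] at hPx
      obtain ⟨a1, a2⟩ := hH2 x hi hPx
      refine ⟨hYU _ a1, ?_⟩
      rw [hPZ _ (hZ.2.1 x hi)]
      exact a2
  · intro i
    unfold fx
    rw [card_eq_one]
    refine ⟨pt i, ?_⟩
    ext x
    rw [mem_filter, mem_singleton]
    constructor
    · rintro ⟨a1, a2⟩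
      exact (hPfix i x a1).mp a2
    · rintro rfl
      exact ⟨hptC i, (hPfix i _ (hptC i)).mpr rfl⟩
  · have h7 : (Z.filter fun x => P x = x) = Z.filter fun x => q x = x := by
      refine filter_congr fun x hx => ?_
      rw [hPZ x hx]
    unfold fx at hH3 ⊢
    rw [h7]
    exact hH3
  · intro i
    by_cases hi : i = 3
    · subst hi
      have h7 : ((C 3).filter fun x => t x ∈ C 1).erase (v 1) ⊆
          ((C 3) \ Y).filter fun x => t x ∉ (C 3) \ Y := by
        intro x hx
        rw [mem_erase, mem_filter] at hx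
        obtain ⟨a1, a2, a3⟩ := hx
        rw [mem_filter, mem_sdiff, mem_sdiff]
        refine ⟨⟨a2, fun hxY => a1 ?_⟩, fun h => hCC 1 3 (by decide) _ a3 h.1⟩
        exact hvu 1 x (hY3i x hxY a2) (hb2 x (hCC 1 3 (by decide) _ a3)) ((hc1 x).mpr a3)
      have h8 := card_le_card h7
      have h9 := pred_card_le_card_erase (s := (C 3).filter fun x => t x ∈ C 1) (a := v 1)
      have h10 := hdm 1
      rw [hcnt 1 (Or.inl rfl)] at h9
      unfold dm at h9 h10 ⊢
      omega
    · have h7 := dm_sdiff t (C i) Y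
      have h8 : ((((C i).filter fun x => t x ∉ C i).filter fun x => x ∈ Y)).card ≤ 1 := by
        refine (card_le_card (t := {pt i}) ?_).trans (by simp)
        intro x hx
        rw [mem_filter, mem_filter] at hx
        rw [mem_singleton]
        exact hYi i hi x hx.2 hx.1.1
      have h10 := hdm i
      omega
  · intro i
    have hSA : C i ∪ Z ⊆ A := union_subset (hCA i) hZA
    have hSI : Inv n (C i ∪ Z) := by
      intro x hx
      rw [mem_union] at hx ⊢
      rcases hx with hx | hx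
      · exact Or.inl ((hCir i).2.1 x hx)
      · exact Or.inr (hZ.2.1 x hx)
    have hSo : Odd (C i ∪ Z).card := by
      rw [card_union_of_disjoint (hCZ i)]
      exact (hOdd i).add_even hZe
    have h7 := hBl (C i ∪ Z) hSA hSI hSo
    have h8 := dm_sdiff t (C i ∪ Z) Y
    have h9 : ((((C i ∪ Z).filter fun x => t x ∉ C i ∪ Z).filter fun x => x ∈ Y)).card ≤ 4 := by
      obtain ⟨F, hFc, hF1⟩ : ∃ F : Finset V, F.card ≤ 4 ∧ ∀ y ∈ Y, y ∉ C i → y ∉ Z →
          (t y ∈ C i ∨ t y ∈ Z) → y ∈ F := by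
        by_cases hi : i = 3
        · subst hi
          refine ⟨{e, t (v 1), t (v 2)}, card_le_three.trans (by norm_num), ?_⟩
          intro y hy hyC hyZ hty
          rw [mem_insert, mem_insert, mem_singleton]
          rcases (hmY y).mp hy with h | h | h | h
          · rcases hUnot y h hyZ with h7 | h7
            · rw [h7] at hyC
              exact absurd (hv3 0) hyC
            · exact Or.inl h7
          · exact absurd (hY3 h) hyC
          · exact Or.inr (Or.inl h)
          · exact Or.inr (Or.inr h)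
        · refine ⟨{e, v 0, v 1, v 2}, card_le_four, ?_⟩
          intro y hy hyC hyZ hty
          have hno : ∀ z, z ∈ C 3 → ¬ (z ∈ C i ∨ z ∈ Z) := by
            rintro z hz (h | h)
            · exact hCC 3 i (Ne.symm hi) z hz h
            · exact hCnZ 3 z hz h
          rw [mem_insert, mem_insert, mem_insert, mem_singleton]
          rcases (hmY y).mp hy with h | h | h | h
          · rcases hUnot y h hyZ with h7 | h7
            · exact Or.inr (Or.inl h7)
            · exact Or.inl h7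
          · rcases hstay y h with h7 | h7 | h7 | h7
            · exact absurd hty (hno _ (hY3 h7))
            · exact Or.inr (Or.inl h7)
            · exact Or.inr (Or.inr (Or.inl h7))
            · exact Or.inr (Or.inr (Or.inr h7))
          · rw [h, htt _ (hvA 1)] at hty
            exact absurd hty (hno _ (hv3 1))
          · rw [h, htt _ (hvA 2)] at hty
            exact absurd hty (hno _ (hv3 2))
      refine le_trans ?_ hFc
      refine card_le_card_of_injOn t ?_ ?_
      · intro x hx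
        rw [mem_coe, mem_filter, mem_filter] at hx
        obtain ⟨⟨a1, a2⟩, a3⟩ := hx
        have hxA := hSA a1
        rw [mem_union, not_or] at a2
        rw [mem_union] at a1
        rw [mem_coe]
        have htxY : t x ∈ Y := by
          rcases (hmY x).mp a3 with h | h | h | h
          · exact hYU _ (hH4 x h).1
          · rcases hstay x h with h7 | h7 | h7 | h7
            · exact hYY _ h7
            · rw [h7]
              exact hYU _ (hH4 _ hvU).1
            · rw [h7]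
              exact hY1
            · rw [h7]
              exact hY2
          · rw [h, htt _ (hvA 1)]
            exact hYY _ (hvY 1)
          · rw [h, htt _ (hvA 2)]
            exact hYY _ (hvY 2)
        refine hF1 (t x) htxY a2.1 a2.2 ?_
        rw [htt x hxA]
        exact a1
      · intro x hx y hy hxy
        rw [mem_coe, mem_filter, mem_filter] at hx hy
        have e1 := htt x (hSA hx.1.1)
        have e2 := htt y (hSA hy.1.1)
        rw [← e1, ← e2, hxy]
    omega

end Pool.Agent.Helper72.FRD.STARC2
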